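import Mathlib
import Pool.Agent.H958.RO.Stm

/-!
# S_GOOD: bounded up-sets and down-sets far from bad vertices
-/

set_option autoImplicit false

namespace Pool.Agent.H195.RO.Good

open Finset
open scoped Classical
open Pool.Agent.W830.RD (Om gle Pr Rlz)
open Pool.Agent.H958.RO

noncomputable section

/-- a walk with `l` steps starting at `x` -/
def Wk {n : ℕ} (r : Fin n → Fin n → Prop) (l : ℕ) (x : Fin n) : Prop :=
  ∃ w : ℕ → Fin n, w 0 = x ∧ ∀ i < l, r (w i) (w (i + 1))

theorem card_le {n : ℕ} (r : Fin n → Fin n → Prop) (D : ℕ) : ∀ (l : ℕ) (x : Fin n),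
    ¬ Wk r l x → (∀ u, Relation.ReflTransGen r x u → (univ.filter (fun v => r u v)).card ≤ D) →
    (univ.filter (fun u => Relation.ReflTransGen r x u)).card ≤ (D + 1) ^ l := by
  intro l
  induction l with
  | zero =>
    intro x hx _
    exact absurd ⟨fun _ => x, rfl, fun i hi => absurd hi (Nat.not_lt_zero i)⟩ hx
  | succ l ih =>
    intro x hx hD
    have hsub : univ.filter (fun u => Relation.ReflTransGen r x u) ⊆
        insert x ((univ.filter (fun v => r x v)).biUnion
          (fun v => univ.filter (fun u => Relation.ReflTransGen r v u))) := by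
      intro u hu
      rw [mem_filter] at hu
      rw [mem_insert, mem_biUnion]
      rcases Relation.ReflTransGen.cases_head hu.2 with h | ⟨v, hv, hvu⟩
      · exact Or.inl h.symm
      · exact Or.inr ⟨v, mem_filter.2 ⟨mem_univ _, hv⟩, mem_filter.2 ⟨mem_univ _, hvu⟩⟩
    have h1 : ∀ v ∈ univ.filter (fun v => r x v),
        (univ.filter (fun u => Relation.ReflTransGen r v u)).card ≤ (D + 1) ^ l := by
      intro v hv
      rw [mem_filter] at hv
      apply ih v
      · rintro ⟨w, hw0, hw⟩
        apply hx
        refine ⟨fun i => if i = 0 then x else w (i - 1), by simp, ?_⟩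
        intro i hi
        rcases Nat.eq_zero_or_pos i with h0 | h0
        · subst h0
          simp only [if_true, zero_add, one_ne_zero, if_false, Nat.sub_self]
          rw [hw0]; exact hv.2
        · have e1 : i ≠ 0 := by omega
          have e2 : i + 1 ≠ 0 := by omega
          simp only [e1, e2, if_false]
          have h2 := hw (i - 1) (by omega)
          have e3 : i - 1 + 1 = i + 1 - 1 := by omega
          rw [e3] at h2
          exact h2
      · intro u hu
        exact hD u (Relation.ReflTransGen.head hv.2 hu)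
    have h2 := (card_le_card hsub).trans (card_insert_le _ _)
    have h3 := card_biUnion_le_card_mul (univ.filter (fun v => r x v))
      (fun v => univ.filter (fun u => Relation.ReflTransGen r v u)) ((D + 1) ^ l) h1
    have h4 := hD x Relation.ReflTransGen.refl
    have h5 : (univ.filter (fun v => r x v)).card * (D + 1) ^ l ≤ D * (D + 1) ^ l :=
      Nat.mul_le_mul_right _ h4
    have h6 : 1 ≤ (D + 1) ^ l := Nat.one_le_pow _ _ (by omega)
    calc _ ≤ D * (D + 1) ^ l + 1 := by omega
      _ ≤ D * (D + 1) ^ l + (D + 1) ^ l := by omega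
      _ = (D + 1) ^ (l + 1) := by ring

theorem exists_seq {n : ℕ} {r : Fin n → Fin n → Prop} {x u : Fin n}
    (h : Relation.ReflTransGen r x u) :
    ∃ (j : ℕ) (w : ℕ → Fin n), w 0 = x ∧ w j = u ∧ ∀ i < j, r (w i) (w (i + 1)) := by
  induction h with
  | refl => exact ⟨0, fun _ => x, rfl, rfl, fun i hi => absurd hi (Nat.not_lt_zero i)⟩
  | @tail b c _ hbc ih =>
    obtain ⟨j, w, hw0, hwj, hw⟩ := ih
    refine ⟨j + 1, fun i => if i ≤ j then w i else c, ?_, ?_, ?_⟩
    · simp [hw0]
    · simp
    · intro i hi
      rcases Nat.lt_or_ge i j with h1 | h1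
      · have e1 : i ≤ j := by omega
        have e2 : i + 1 ≤ j := by omega
        simp only [e1, e2, if_true]
        exact hw i h1
      · have e0 : i = j := by omega
        subst e0
        have e2 : ¬ (i + 1 ≤ i) := by omega
        simp only [le_refl, if_true, e2, if_false]
        rw [hwj]; exact hbc

theorem exists_walk {n : ℕ} {G : SimpleGraph (Fin n)} (w : ℕ → Fin n) (j : ℕ)
    (h : ∀ i < j, G.Adj (w i) (w (i + 1))) : ∃ p : G.Walk (w 0) (w j), p.length = j := by
  induction j with
  | zero => exact ⟨SimpleGraph.Walk.nil, rfl⟩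
  | succ j ih =>
    obtain ⟨p, hp⟩ := ih (fun i hi => h i (by omega))
    refine ⟨p.concat (h j (by omega)), ?_⟩
    rw [SimpleGraph.Walk.length_concat, hp]

theorem near {n : ℕ} {G : SimpleGraph (Fin n)} {r : Fin n → Fin n → Prop}
    (hr : ∀ a b, r a b → G.Adj a b) {l : ℕ} {v u : Fin n} (hv : ¬ Wk r l v)
    (h : Relation.ReflTransGen r v u) : ∃ p : G.Walk v u, p.length < l := by
  obtain ⟨j, w, hw0, hwj, hw⟩ := exists_seq h
  have hj : j < l := by
    by_contra hcon
    exact hv ⟨w, hw0, fun i hi => hw i (by omega)⟩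
  obtain ⟨p, hp⟩ := exists_walk (G := G) w j (fun i hi => hr _ _ (hw i hi))
  subst hw0
  subst hwj
  exact ⟨p, by omega⟩

section

variable {n : ℕ} {E : Finset (Fin n × Fin n)} {l D : ℕ}

/-- the two relations -/
def rel (E : Finset (Fin n × Fin n)) (s : Bool) (a b : Fin n) : Prop :=
  if s then (a, b) ∈ E else (b, a) ∈ E

theorem rel_adj (hE : E ⊆ Om n) (s : Bool) (a b : Fin n) (h : rel E s a b) : (GG E).Adj a b := by
  unfold rel at h
  have hlt : ∀ a b : Fin n, (a, b) ∈ E → a < b := fun a b hab => by
    have := hE hab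
    unfold Om at this
    exact (mem_filter.1 this).2
  cases s
  · simp only [Bool.false_eq_true, if_false] at h
    exact ⟨(hlt _ _ h).ne', Or.inr h⟩
  · simp only [if_true] at h
    exact ⟨(hlt _ _ h).ne, Or.inl h⟩

theorem not_wk (s : Bool) {v : Fin n} (hv : ¬ Bad E l D v) : ¬ Wk (rel E s) l v := by
  rintro ⟨w, hw0, hw⟩
  apply hv
  right
  cases s
  · refine ⟨fun i => w (l - i), ?_, l, le_rfl, ?_⟩
    · intro i hi
      have h1 := hw (l - i - 1) (by omega)
      unfold rel at h1
      simp only [Bool.false_eq_true, if_false] at h1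
      have e1 : l - i - 1 + 1 = l - i := by omega
      have e2 : l - (i + 1) = l - i - 1 := by omega
      rw [e1] at h1
      show (w (l - i), w (l - (i + 1))) ∈ E
      rw [e2]
      exact h1
    · show w (l - l) = v
      rw [Nat.sub_self, hw0]
  · refine ⟨w, ?_, 0, Nat.zero_le _, hw0⟩
    intro i hi
    have h1 := hw i hi
    unfold rel at h1
    simpa using h1

theorem deg (hE : E ⊆ Om n) (s : Bool) {v : Fin n} (hv : ¬ Bad E l D v) :
    (univ.filter (fun u => rel E s v u)).card ≤ D := by
  have h1 : dg E univ v ≤ D := by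
    by_contra h
    exact hv (Or.inl (by omega))
  refine le_trans (card_le_card ?_) h1
  intro u hu
  rw [mem_filter] at hu ⊢
  exact ⟨mem_univ _, rel_adj hE s v u hu.2⟩

theorem count (hE : E ⊆ Om n) (hl : 1 ≤ l) (s : Bool) {v : Fin n}
    (hv : ∀ u, (∃ p : (GG E).Walk v u, p.length < l) → ¬ Bad E l D u) :
    (univ.filter (fun u => Relation.ReflTransGen (rel E s) v u)).card ≤ (D + 1) ^ l := by
  have h0 : ¬ Bad E l D v := hv v ⟨SimpleGraph.Walk.nil, by
    rw [SimpleGraph.Walk.length_nil]; omega⟩
  apply card_le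
  · exact not_wk s h0
  · intro u hu
    exact deg hE s (hv u (near (rel_adj hE s) (not_wk s h0) hu))

theorem rtg_true (a b : Fin n) : Relation.ReflTransGen (rel E true) a b ↔ gle E a b := by
  unfold gle rel
  simp

theorem rtg_false (a b : Fin n) : Relation.ReflTransGen (rel E false) a b ↔ gle E b a := by
  unfold gle rel
  simp only [Bool.false_eq_true, if_false]
  exact Relation.reflTransGen_swap

end

theorem main : S_GOOD := by
  intro n E l D x hE hl hx
  have hfar : ∀ v, (∃ p : (GG E).Walk x v, p.length ≤ 2 * l) → ¬ Bad E l D v := by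
    intro v hv hb
    apply hx
    unfold NN
    rw [mem_filter]
    exact ⟨mem_univ _, v, hb, hv⟩
  have hnear : ∀ v, (∃ p : (GG E).Walk x v, p.length < l) → ∀ u,
      (∃ p : (GG E).Walk v u, p.length < l) → ¬ Bad E l D u := by
    rintro v ⟨p, hp⟩ u ⟨q, hq⟩
    apply hfar u
    refine ⟨p.append q, ?_⟩
    rw [SimpleGraph.Walk.length_append]
    omega
  have hx0 : ∀ u, (∃ p : (GG E).Walk x u, p.length < l) → ¬ Bad E l D u :=
    hnear x ⟨SimpleGraph.Walk.nil, by rw [SimpleGraph.Walk.length_nil]; omega⟩
  have hxb : ¬ Bad E l D x := hfar x ⟨SimpleGraph.Walk.nil, by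
    rw [SimpleGraph.Walk.length_nil]; omega⟩
  refine ⟨?_, ?_, ?_, ?_⟩
  · have h := count hE hl true hx0
    simp only [rtg_true] at h
    exact h
  · intro u hu
    have h1 := near (rel_adj hE true) (not_wk true hxb) ((rtg_true x u).2 hu)
    have h := count hE hl false (hnear u h1)
    simp only [rtg_false] at h
    exact h
  · have h := count hE hl false hx0
    simp only [rtg_false] at h
    exact h
  · intro u hu
    have h1 := near (rel_adj hE false) (not_wk false hxb) ((rtg_false x u).2 hu)
    have h := count hE hl true (hnear u h1)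
    simp only [rtg_true] at h
    exact h

end

end Pool.Agent.H195.RO.Good
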