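import Pool.Agent.H705.RO.Stm2

/-! # VL1: second moment method for the length of a random set -/

set_option autoImplicit false

namespace Pool.Agent.H195.RO

open MeasureTheory ProbabilityTheory Filter Topology Finset
open Pool.Agent.H705.RO
open scoped ENNReal

/-- the second moment -/
theorem vl_second {Ω : Type} [MeasurableSpace Ω] (P : Measure Ω) [IsProbabilityMeasure P]
    (E : Set (Ω × ℝ)) (T q η Δ : ℝ) (hE : MeasurableSet E) (hT : 0 < T) (hq : 0 < q) (hη : 0 ≤ η)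
    (hΔ : 0 ≤ Δ)
    (h1 : ∀ t : ℝ, 0 ≤ t → t ≤ T → P {ω | (ω, t) ∈ E} = ENNReal.ofReal q)
    (h2 : ∀ t t' : ℝ, 0 ≤ t → t ≤ T → 0 ≤ t' → t' ≤ T → Δ ≤ |t - t'| →
      P {ω | (ω, t) ∈ E ∧ (ω, t') ∈ E} ≤ ENNReal.ofReal (q ^ 2 * (1 + η))) :
    ∫⁻ ω, ((volume : Measure ℝ).restrict (Set.Icc 0 T) (Prod.mk ω ⁻¹' E)) ^ 2 ∂P ≤
      ENNReal.ofReal (T ^ 2 * q ^ 2 * (1 + η) + 2 * Δ * T * q) := by
  obtain ⟨ν, hν⟩ : ∃ ν : Measure ℝ, ν = (volume : Measure ℝ).restrict (Set.Icc 0 T) := ⟨_, rfl⟩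
  have hνf : IsFiniteMeasure ν := by
    rw [hν]
    infer_instance
  have hνu : ν Set.univ = ENNReal.ofReal T := by
    rw [hν, Measure.restrict_apply_univ, Real.volume_Icc, sub_zero]
  have hνle : ν ≤ (volume : Measure ℝ) := by
    rw [hν]
    exact Measure.restrict_le_self
  rw [← hν]
  obtain ⟨E2, hE2⟩ : ∃ E2 : Set (Ω × (ℝ × ℝ)), E2 =
    {z | (z.1, z.2.1) ∈ E ∧ (z.1, z.2.2) ∈ E} := ⟨_, rfl⟩
  have hm2 : MeasurableSet E2 := by
    rw [hE2]
    have m1 : Measurable fun z : Ω × (ℝ × ℝ) => (z.1, z.2.1) := by fun_prop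
    have m2 : Measurable fun z : Ω × (ℝ × ℝ) => (z.1, z.2.2) := by fun_prop
    exact (m1 hE).inter (m2 hE)
  have e1 : ∫⁻ ω, (ν (Prod.mk ω ⁻¹' E)) ^ 2 ∂P = (P.prod (ν.prod ν)) E2 := by
    rw [Measure.prod_apply hm2]
    refine lintegral_congr fun ω => ?_
    have : Prod.mk ω ⁻¹' E2 = (Prod.mk ω ⁻¹' E) ×ˢ (Prod.mk ω ⁻¹' E) := by
      rw [hE2]
      ext z
      simp
    rw [this, Measure.prod_prod, pow_two]
  obtain ⟨D, hD⟩ : ∃ D : Set (ℝ × ℝ), D = {z | |z.1 - z.2| < Δ} := ⟨_, rfl⟩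
  have hmD : MeasurableSet D := by
    rw [hD]
    have m1 : Measurable fun z : ℝ × ℝ => |z.1 - z.2| := by fun_prop
    exact measurableSet_lt m1 measurable_const
  have hνD : (ν.prod ν) D ≤ ENNReal.ofReal (2 * Δ) * ENNReal.ofReal T := by
    rw [Measure.prod_apply hmD]
    calc ∫⁻ t, ν (Prod.mk t ⁻¹' D) ∂ν ≤ ∫⁻ _ : ℝ, ENNReal.ofReal (2 * Δ) ∂ν := by
          refine lintegral_mono fun t => ?_
          refine (hνle _).trans ?_
          rw [← Real.volume_ball t Δ]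
          refine measure_mono fun s hs => ?_
          rw [hD] at hs
          have hs' : |t - s| < Δ := hs
          rw [Metric.mem_ball, Real.dist_eq, abs_sub_comm]
          exact hs'
      _ = ENNReal.ofReal (2 * Δ) * ENNReal.ofReal T := by rw [lintegral_const, hνu]
  have hνν : (ν.prod ν) Set.univ = ENNReal.ofReal T * ENNReal.ofReal T := by
    rw [← Set.univ_prod_univ, Measure.prod_prod, hνu]
  have hres : ν.prod ν = ((volume : Measure ℝ).prod (volume : Measure ℝ)).restrict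
      (Set.Icc 0 T ×ˢ Set.Icc 0 T) := by
    rw [hν, Measure.prod_restrict]
  have e2 : (P.prod (ν.prod ν)) E2 ≤
      ∫⁻ z, (ENNReal.ofReal (q ^ 2 * (1 + η)) + D.indicator (fun _ => ENNReal.ofReal q) z)
        ∂(ν.prod ν) := by
    rw [Measure.prod_apply_symm hm2]
    refine lintegral_mono_ae ?_
    rw [hres]
    refine (ae_restrict_iff' (measurableSet_Icc.prod measurableSet_Icc)).2
      (Filter.Eventually.of_forall fun z hz => ?_)
    have hz1 : z.1 ∈ Set.Icc 0 T := hz.1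
    have hz2 : z.2 ∈ Set.Icc 0 T := hz.2
    have hset : (fun ω : Ω => (ω, z)) ⁻¹' E2 = {ω | (ω, z.1) ∈ E ∧ (ω, z.2) ∈ E} := by
      rw [hE2]
      rfl
    rw [hset]
    by_cases hzD : z ∈ D
    · rw [Set.indicator_of_mem hzD]
      refine le_trans ?_ le_add_self
      rw [← h1 z.1 hz1.1 hz1.2]
      exact measure_mono fun ω hω => hω.1
    · rw [Set.indicator_of_notMem hzD, add_zero]
      refine h2 z.1 z.2 hz1.1 hz1.2 hz2.1 hz2.2 ?_
      rw [hD] at hzD
      exact not_lt.1 hzD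
  rw [e1]
  refine e2.trans ?_
  rw [lintegral_add_left measurable_const, lintegral_const, lintegral_indicator_const hmD, hνν]
  calc ENNReal.ofReal (q ^ 2 * (1 + η)) * (ENNReal.ofReal T * ENNReal.ofReal T) +
        ENNReal.ofReal q * (ν.prod ν) D
      ≤ ENNReal.ofReal (q ^ 2 * (1 + η)) * (ENNReal.ofReal T * ENNReal.ofReal T) +
        ENNReal.ofReal q * (ENNReal.ofReal (2 * Δ) * ENNReal.ofReal T) := by gcongr
    _ = ENNReal.ofReal (T ^ 2 * q ^ 2 * (1 + η) + 2 * Δ * T * q) := by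
      rw [← ENNReal.ofReal_mul hT.le, ← ENNReal.ofReal_mul (by positivity),
        ← ENNReal.ofReal_mul (by positivity), ← ENNReal.ofReal_mul hq.le,
        ← ENNReal.ofReal_add (by positivity) (by positivity)]
      congr 1
      ring

theorem T_VL1 : P_VL1 := by
  intro Ω _ P _ E T q η Δ hE hT hq hη hΔ h1 h2
  have hsec := vl_second P E T q η Δ hE hT hq hη hΔ h1 h2
  obtain ⟨ν, hν⟩ : ∃ ν : Measure ℝ, ν = (volume : Measure ℝ).restrict (Set.Icc 0 T) := ⟨_, rfl⟩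
  have hνf : IsFiniteMeasure ν := by
    rw [hν]
    infer_instance
  have hνu : ν Set.univ = ENNReal.ofReal T := by
    rw [hν, Measure.restrict_apply_univ, Real.volume_Icc, sub_zero]
  rw [← hν] at hsec
  have hZ : ∀ ω, (volume : Measure ℝ) {t : ℝ | 0 ≤ t ∧ t ≤ T ∧ (ω, t) ∈ E} =
      ν (Prod.mk ω ⁻¹' E) := by
    intro ω
    rw [hν, Measure.restrict_apply' measurableSet_Icc]
    congr 1
    ext t
    simp only [Set.mem_ofPred_eq, Set.mem_inter_iff, Set.mem_preimage, Set.mem_Icc]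
    tauto
  have hZle : ∀ ω, ν (Prod.mk ω ⁻¹' E) ≤ ENNReal.ofReal T := fun ω => by
    rw [← hνu]
    exact measure_mono (Set.subset_univ _)
  have hZm : Measurable fun ω => ν (Prod.mk ω ⁻¹' E) := measurable_measure_prodMk_left hE
  have hfst : ∫⁻ ω, ν (Prod.mk ω ⁻¹' E) ∂P = ENNReal.ofReal (T * q) := by
    rw [← Measure.prod_apply hE, Measure.prod_apply_symm hE, hν]
    calc ∫⁻ t in Set.Icc 0 T, P ((fun ω => (ω, t)) ⁻¹' E)
        = ∫⁻ _ in Set.Icc 0 T, ENNReal.ofReal q :=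
          setLIntegral_congr_fun measurableSet_Icc fun t ht => h1 t ht.1 ht.2
      _ = ENNReal.ofReal (T * q) := by
          rw [setLIntegral_const, Real.volume_Icc, sub_zero, ← ENNReal.ofReal_mul hq.le, mul_comm]
  obtain ⟨z, hz⟩ : ∃ z : Ω → ℝ, z = fun ω => (ν (Prod.mk ω ⁻¹' E)).toReal := ⟨_, rfl⟩
  have hzm : Measurable z := by
    rw [hz]
    exact hZm.ennreal_toReal
  have hz0 : ∀ ω, 0 ≤ z ω := fun ω => by
    rw [hz]
    exact ENNReal.toReal_nonneg
  have hzT : ∀ ω, z ω ≤ T := fun ω => by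
    rw [hz]
    exact ENNReal.toReal_le_of_le_ofReal hT.le (hZle ω)
  have hzZ : ∀ ω, ν (Prod.mk ω ⁻¹' E) = ENNReal.ofReal (z ω) := fun ω => by
    rw [hz]
    exact (ENNReal.ofReal_toReal (measure_ne_top _ _)).symm
  have hmem : MemLp z 2 P := by
    refine MemLp.of_bound hzm.aestronglyMeasurable T (Filter.Eventually.of_forall fun ω => ?_)
    rw [Real.norm_eq_abs, abs_of_nonneg (hz0 ω)]
    exact hzT ω
  have hmean : ∫ ω, z ω ∂P = T * q := by
    rw [integral_eq_lintegral_of_nonneg_ae (Filter.Eventually.of_forall hz0)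
      hzm.aestronglyMeasurable]
    simp only [← hzZ]
    rw [hfst, ENNReal.toReal_ofReal (by positivity)]
  have hsq : ∫ ω, (z ω) ^ 2 ∂P ≤ T ^ 2 * q ^ 2 * (1 + η) + 2 * Δ * T * q := by
    rw [integral_eq_lintegral_of_nonneg_ae (Filter.Eventually.of_forall fun ω => sq_nonneg _)
      (hzm.pow_const 2).aestronglyMeasurable]
    refine ENNReal.toReal_le_of_le_ofReal (by positivity) ?_
    refine le_trans (le_of_eq (lintegral_congr fun ω => ?_)) hsec
    rw [hzZ ω, ENNReal.ofReal_pow (hz0 ω)]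
  have hvar : variance z P ≤ η * (T * q) ^ 2 + 2 * Δ * (T * q) := by
    rw [variance_eq_sub hmem]
    have : ∫ ω, (z ^ 2) ω ∂P = ∫ ω, (z ω) ^ 2 ∂P := rfl
    rw [this, hmean]
    nlinarith
  have hm : 0 < T * q := mul_pos hT hq
  have hch := meas_ge_le_variance_div_sq hmem (c := T * q / 2) (by linarith)
  refine le_trans (measure_mono fun ω hω => ?_) (hch.trans (ENNReal.ofReal_le_ofReal ?_))
  · have hω' : (volume : Measure ℝ) {t : ℝ | 0 ≤ t ∧ t ≤ T ∧ (ω, t) ∈ E} <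
      ENNReal.ofReal (T * q / 2) := hω
    rw [hZ ω, hzZ ω, ENNReal.ofReal_lt_ofReal_iff (by linarith)] at hω'
    change T * q / 2 ≤ |z ω - ∫ ω, z ω ∂P|
    rw [hmean, abs_sub_comm, abs_of_nonneg (by linarith)]
    linarith
  · rw [div_le_iff₀ (by positivity)]
    refine hvar.trans (le_of_eq ?_)
    field_simp
    ring

end Pool.Agent.H195.RO
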